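import Pool.Agent.WFP.FIN

/-!
# MP_9ab234_al: weight of free products of cyclic groups, some of them infinite

Let `G 0, ..., G (n-1)` be nontrivial cyclic groups, `m ≥ 1` of them infinite.  Every finite set
whose normal closure is the whole free product has at least `min (n/2, m+2)` elements.  Hence the
inequality `n/2 ≤ w(G)` holds whenever at least one factor is infinite and `n ≤ 2m+4`.
-/

set_option autoImplicit false

namespace Pool.Agent.Results.MP_9ab234_al.InfiniteFactors

/-- For nontrivial cyclic groups `G i`, `i : Fin n`, such that the number `m` of infinite ones is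
positive, every finite set `S` in the free product whose normal closure is the whole group
satisfies `min n (2m+4) ≤ 2 |S|`. -/
theorem result (n : ℕ) (G : Fin n → Type) [∀ i, Group (G i)] [∀ i, IsCyclic (G i)]
    [∀ i, Nontrivial (G i)] (hm : 0 < Nat.card {i : Fin n // Infinite (G i)})
    (S : Finset (Monoid.CoprodI G))
    (hS : Subgroup.normalClosure (S : Set (Monoid.CoprodI G)) = ⊤) :
    min n (2 * Nat.card {i : Fin n // Infinite (G i)} + 4) ≤ 2 * S.card :=
  Pool.Agent.WFP.weight_ge n G hm S hS

end Pool.Agent.Results.MP_9ab234_al.InfiniteFactors
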